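import Pool.Agent.H438R3.PA.Main

/-!
# There is no countable universal projective algebra of plane sets
-/

namespace Pool.Agent.Results.MP_3db952_lc.NoUniversal

open Pool.Agent.H438R3.PA Cardinal

/-- There is no countable projective algebra in which each countable projective algebra embeds;
in fact a family of plane sets, in which each projective algebra generated by one set embeds (as
a projective algebra contained in the family), has at least continuum many members. -/
theorem result :
    (¬ ∃ U : Set (Set (ℝ × ℝ)), IsProjAlg U ∧ U.Countable ∧
      ∀ F : Set (Set (ℝ × ℝ)), IsProjAlg F → F.Countable →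
        ∃ V ⊆ U, IsProjAlg V ∧ Iso F V) ∧
    (∀ U : Set (Set (ℝ × ℝ)), (∀ S : Set (ℝ × ℝ), ∃ V ⊆ U, IsProjAlg V ∧ Iso (gen {S}) V) →
      𝔠 ≤ #U) :=
  ⟨not_universal, fun _ h => large h⟩

end Pool.Agent.Results.MP_3db952_lc.NoUniversal
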